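import Mathlib
import Pool.Agent.Lib.MP_5e2fbc_nt.B10.Dens
import Pool.Agent.Lib.MP_5e2fbc_nt.B10.Real
import Pool.Agent.Lib.MP_5e2fbc_nt.B10.Cell
import Pool.Agent.Lib.MP_5e2fbc_nt.B10.Mert

set_option autoImplicit false

namespace Pool.Agent.Results.MP_5e2fbc_nt.BaseTen

open Filter Finset Pool.Agent.NW

/-- `l_p`: the multiplicative order of `10` modulo `p`, the length of the period of `1/p`. -/
noncomputable def period (p : ℕ) : ℕ := orderOf (10 : ZMod p)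

/-- `c_p = (10 ^ l_p - 1) / p`: the repeating block of `1/p`. -/
noncomputable def block (p : ℕ) : ℕ := (10 ^ period p - 1) / p

lemma count {Bad : ℕ → Prop} {S : Set ℕ} {δ : ℝ} (hδ : 0 < δ)
    (h : ∀ᶠ x : ℕ in atTop, δ * x ≤ thb Bad x) (hS : ∀ p, p.Prime → 5 < p → Bad p → p ∈ S) :
    ∀ᶠ x : ℕ in atTop, δ / 2 * x / Real.log x ≤ ({p | p ≤ x ∧ p ∈ S}.ncard : ℝ) := by
  classical
  have h1 := tendsto_natCast_atTop_atTop.eventually
    (Real.isLittleO_log_id_atTop.bound (c := δ / 10) (by positivity))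
  filter_upwards [h, h1, eventually_ge_atTop 2] with x h2 h3 h4
  have hx : (1:ℝ) < x := by exact_mod_cast h4
  have hl := Real.log_pos hx
  rw [id, Real.norm_eq_abs, Real.norm_eq_abs, Nat.abs_cast, abs_of_pos hl] at h3
  have h5 : #{p ∈ Icc 1 x | p.Prime ∧ Bad p} ≤ #{p ∈ Icc 1 x | p ∈ S} + 5 := by
    refine (card_le_card (t := {p ∈ Icc 1 x | p ∈ S} ∪ Icc 1 5) fun p hp => ?_).trans
      ((card_union_le _ _).trans (by simp))
    rw [mem_filter] at hp
    rw [mem_union, mem_filter, mem_Icc (a := 1) (b := 5)]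
    rcases lt_or_ge 5 p with h6 | h6
    · exact Or.inl ⟨hp.1, hS p hp.2.1 h6 hp.2.2⟩
    · exact Or.inr ⟨hp.2.1.pos, h6⟩
  have h6 : #{p ∈ Icc 1 x | p ∈ S} ≤ {p | p ≤ x ∧ p ∈ S}.ncard := by
    rw [← Set.ncard_coe_finset]
    refine Set.ncard_le_ncard (fun p hp => ?_) ((Set.finite_le_nat x).subset fun p hp => hp.1)
    rw [mem_coe, mem_filter, mem_Icc] at hp
    exact ⟨hp.1.2, hp.2⟩
  have h7 : (#{p ∈ Icc 1 x | p.Prime ∧ Bad p} : ℝ) ≤ ({p | p ≤ x ∧ p ∈ S}.ncard : ℝ) + 5 := by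
    exact_mod_cast h5.trans (Nat.add_le_add_right h6 5)
  have h8 := h2.trans ((thb_le Bad x).trans (mul_le_mul_of_nonneg_right h7 hl.le))
  rw [div_le_iff₀ hl]
  linarith

lemma dvd_fq {p : ℕ} (hp : p.Prime) (h5 : 5 < p) (h : p ∣ block p) : p ∣ fq 10 p := by
  have := Fact.mk hp
  have h10 : ¬ p ∣ 10 := fun h => by
    have := Nat.le_of_dvd (by norm_num) h
    interval_cases p <;> first | omega | norm_num at hp
  have h0 : (10 : ZMod p) ≠ 0 := fun h => h10 ((ZMod.natCast_eq_zero_iff 10 p).1 (by simpa using h))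
  have h1 : p ∣ 10 ^ period p - 1 := by
    rw [← ZMod.natCast_eq_zero_iff, Nat.cast_sub (Nat.one_le_pow _ _ (by norm_num))]
    push_cast
    rw [period, pow_orderOf_eq_one, sub_self]
  obtain ⟨k, hk⟩ : period p ∣ p - 1 := ZMod.orderOf_dvd_card_sub_one h0
  have h2 : p * p ∣ 10 ^ (p - 1) - 1 := by
    rw [hk, pow_mul]
    exact ((Nat.dvd_div_iff_mul_dvd h1).1 h).trans (Nat.sub_one_dvd_pow_sub_one _ _)
  exact (Nat.dvd_div_iff_mul_dvd ((dvd_mul_right p p).trans h2)).2 h2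

/-- For all large `x`, at least `x / (3000 log x)` primes `p ≤ x` other than `2` and `5` do not
divide the repeating block `c_p` of `1/p`. -/
theorem result : ∀ᶠ x : ℕ in atTop, (x : ℝ) / (3000 * Real.log x) ≤
    ({p : ℕ | p ≤ x ∧ p.Prime ∧ p ≠ 2 ∧ p ≠ 5 ∧ ¬ p ∣ block p}.ncard : ℝ) := by
  have h := count (S := {p : ℕ | p.Prime ∧ p ≠ 2 ∧ p ≠ 5 ∧ ¬ p ∣ block p}) (by norm_num)
    (B10.dens (B10.lower (B10.real_bound 480) (B10.cell_bound 480) B10.mert))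
    fun p hp h5 hb => ⟨hp, by omega, by omega, fun h => hb (dvd_fq hp h5 h)⟩
  filter_upwards [h] with x hx
  refine le_of_eq_of_le ?_ hx
  ring

end Pool.Agent.Results.MP_5e2fbc_nt.BaseTen
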