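import Mathlib
import Pool.Agent.Lib.MP_5e2fbc_nt.Main
import Pool.Agent.Lib.MP_5e2fbc_nt.Dens

set_option autoImplicit false

namespace Pool.Agent.Results.MP_5e2fbc_nt.NonResidue

open scoped NumberTheorySymbols
open Filter Topology Pool.Agent.FQ5e

/-- `l_p`: the multiplicative order of `a` modulo `p` (the period of `1/p` in base `a`). -/
noncomputable def period (a p : ℕ) : ℕ := orderOf (a : ZMod p)

/-- `c_p = (a ^ l_p - 1) / p`: the repeating block of `1/p` in base `a`. -/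
noncomputable def block (a p : ℕ) : ℕ := (a ^ period a p - 1) / p

/-- `m_p`: the exponent of `p` in `c_p`. -/
noncomputable def expo (a p : ℕ) : ℕ := padicValNat p (block a p)

/-- The Fermat quotient `(a ^ (p - 1) - 1) / p`. -/
def fermatQuot (a p : ℕ) : ℕ := (a ^ (p - 1) - 1) / p

lemma bad_of_neg {a p i k : ℕ} (ha : 2 ≤ a) (hp : p.Prime) (h8 : p % 8 = 1)
    (h0 : period a p ≠ 0) (hk : block a p = p ^ (2 * i) * k) (hJ : J((k : ℤ) | p) = -1) :
    ¬ p ∣ a ∧ p ≤ a ^ period a p ∧ Even (expo a p) ∧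
      ¬ IsSquare ((block a p / p ^ expo a p : ℕ) : ZMod p) ∧
      ¬ IsSquare ((fermatQuot a p / p ^ expo a p : ℕ) : ZMod p) := by
  have := Fact.mk hp
  have h1 : (a : ZMod p) ^ period a p = 1 := pow_orderOf_eq_one _
  have hane : (a : ZMod p) ≠ 0 := by
    intro h2
    rw [h2, zero_pow h0] at h1
    exact zero_ne_one h1
  have hone : 1 < a ^ period a p := Nat.one_lt_pow h0 ha
  have hdvd : p ∣ a ^ period a p - 1 := by
    rw [← ZMod.natCast_eq_zero_iff, Nat.cast_sub hone.le]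
    push_cast
    rw [h1, sub_self]
  have hns : ¬ IsSquare (k : ZMod p) := by
    simpa using ZMod.nonsquare_of_jacobiSym_eq_neg_one hJ
  have hpk : ¬ p ∣ k := by
    intro h2
    apply hns
    rw [(ZMod.natCast_eq_zero_iff _ _).2 h2]
    exact IsSquare.zero
  have hk0 : k ≠ 0 := by rintro rfl; simp at hpk
  have hexp : expo a p = 2 * i := by
    rw [expo, hk, padicValNat.mul (pow_ne_zero _ hp.ne_zero) hk0, padicValNat.prime_pow,
      padicValNat.eq_zero_of_not_dvd hpk, add_zero]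
  have hpos : 0 < p ^ (2 * i) := pow_pos hp.pos _
  refine ⟨fun h2 => hane ((ZMod.natCast_eq_zero_iff _ _).2 h2),
    (Nat.le_of_dvd (by omega) hdvd).trans (Nat.sub_le _ _), hexp ▸ even_two_mul i, ?_, ?_⟩
  · rw [hexp, hk, Nat.mul_div_cancel_left _ hpos]
    exact hns
  obtain ⟨d, hd⟩ : period a p ∣ p - 1 := ZMod.orderOf_dvd_card_sub_one hane
  have hd0 : d ≠ 0 := by
    rintro rfl
    have := hp.two_le
    omega
  have e1 : a ^ (p - 1) - 1 =
      (a ^ period a p - 1) * ∑ i ∈ Finset.range d, (a ^ period a p) ^ i := by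
    rw [hd, pow_mul, mul_comm, Nat.geomSum_eq hone, Nat.div_mul_cancel]
    simpa using Nat.sub_dvd_pow_sub_pow (a ^ period a p) 1 d
  have e2 : fermatQuot a p = block a p * ∑ i ∈ Finset.range d, (a ^ period a p) ^ i := by
    rw [fermatQuot, block, e1, mul_comm, Nat.mul_div_assoc _ hdvd, mul_comm]
  have hq : ((fermatQuot a p / p ^ expo a p : ℕ) : ZMod p) = (k : ZMod p) * d := by
    rw [e2, hexp, hk, mul_assoc, Nat.mul_div_cancel_left _ hpos]
    push_cast
    simp [h1]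
  have hJ2 : J(((fermatQuot a p / p ^ expo a p : ℕ) : ℤ) | p) = -1 := by
    have e3 : J(((fermatQuot a p / p ^ expo a p : ℕ) : ℤ) | p) = J((k : ℤ) * d | p) := by
      apply jacobiSym.mod_left'
      apply (ZMod.intCast_eq_intCast_iff _ _ _).1
      rw [Int.cast_natCast, hq]
      push_cast
      rfl
    rw [e3, jacobiSym.mul_left, hJ, jac_div h8 d (Dvd.intro_left _ hd.symm) hd0, mul_one]
  have := ZMod.nonsquare_of_jacobiSym_eq_neg_one hJ2
  rwa [Int.cast_natCast] at this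

theorem result (a m : ℕ) (ha : 2 ≤ a) (hm : 0 < m) (C : ℝ) :
    ∀ᶠ x : ℝ in atTop, C * (Real.log x / Real.log (Real.log x)) ≤
      (Set.ncard {p : ℕ | p.Prime ∧ (p : ℝ) ≤ x ∧ ¬ p ∣ a ∧ p ≡ 1 [MOD m] ∧
        Even (expo a p) ∧ ¬ IsSquare ((block a p / p ^ expo a p : ℕ) : ZMod p) ∧
        ¬ IsSquare ((fermatQuot a p / p ^ expo a p : ℕ) : ZMod p)} : ℝ) := by
  classical
  obtain ⟨n, Q, T, r, A, hn, hQ, hT, hr, H⟩ := core ha hm
  have hφ : (0 : ℝ) < Q.totient := by exact_mod_cast Nat.totient_pos.2 hQ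
  have hna : (1 : ℝ) ≤ n * a := by exact_mod_cast Nat.mul_pos hn (by omega)
  have hna0 : (0 : ℝ) < n * a := by linarith
  obtain ⟨S, hS, hsum⟩ := recip_div hT hr ((C + 1) * (3 * Q.totient * (n * a)))
  choose! N ε h1 h2 h3 h4 h5 h6 using H
  choose! f hf using h6
  set K := A + ∑ k ∈ S, k with hK
  have hkK : ∀ k ∈ S, k ≤ K := fun k hk =>
    (Finset.single_le_sum (f := fun k => k) (fun _ _ => Nat.zero_le _) hk).trans
      (Nat.le_add_left _ _)
  set P : ℕ → ℝ → Finset ℕ := fun k y => (Finset.Icc 1 ⌊y⌋₊).filter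
    (fun l : ℕ => l.Prime ∧ l ≡ 1 [MOD Q] ∧ J((l : ℤ) | N k) * ε k l = 1) with hP
  have t1 : ∀ᶠ x : ℝ in atTop, ∀ k ∈ S, Real.log x / (n * a * k) / (3 * Q.totient) ≤
      ∑ l ∈ P k (Real.log x / (n * a * k)), Real.log l := by
    rw [Finset.eventually_all]
    intro k hk
    obtain ⟨k1, k2⟩ := hS k hk
    have hk0 : (0 : ℝ) < k := by exact_mod_cast k1.pos
    have hL : Q * (k - 1) ≠ 0 := by
      have := k1.two_le
      exact mul_ne_zero hQ.ne' (by omega)
    exact (Real.tendsto_log_atTop.atTop_div_const (by positivity)).eventually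
      (dens (Dvd.intro _ rfl) hL (h1 k k1 k2) (h2 k k1 k2) (h3 k k1 k2) (ε k) (h4 k k1 k2)
        (h5 k k1 k2))
  have t2 : ∀ᶠ t : ℝ in atTop, ((S.card * K + 1 : ℕ) : ℝ) * Real.log t ≤ t := by
    have hc : (0 : ℝ) < ((S.card * K + 1 : ℕ) : ℝ) := by positivity
    filter_upwards [Real.isLittleO_log_id_atTop.bound (inv_pos.2 hc), eventually_gt_atTop 1]
      with t h7 h8
    rw [Real.norm_of_nonneg (Real.log_pos h8).le, id, Real.norm_of_nonneg (by linarith),
      ← div_eq_inv_mul, le_div_iff₀ hc] at h7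
    linarith
  filter_upwards [t1, Real.tendsto_log_atTop.eventually t2,
    Real.tendsto_log_atTop.eventually_gt_atTop 1, eventually_gt_atTop 0] with x e1 e2 e3 hx
  have hL : 0 < Real.log (Real.log x) := Real.log_pos e3
  set y : ℕ → ℝ := fun k => Real.log x / (n * a * k) with hy
  have hmem : ∀ k ∈ S, ∀ l ∈ P k (y k), l.Prime ∧ l ≡ 1 [MOD Q] ∧
      J((l : ℤ) | N k) * ε k l = 1 ∧ (l : ℝ) * (n * a * k) ≤ Real.log x := by
    intro k hk l hl
    have hk0 : (0 : ℝ) < k := by exact_mod_cast (hS k hk).1.pos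
    simp only [hP, Finset.mem_filter, Finset.mem_Icc] at hl
    refine ⟨hl.2.1, hl.2.2.1, hl.2.2.2, ?_⟩
    rw [← le_div_iff₀ (by positivity)]
    exact (Nat.le_floor_iff (by positivity)).1 hl.1.2
  set U := S.sigma (fun k => (P k (y k)).filter (fun l => K < l)) with hU
  have hUm : ∀ z ∈ U, (z.1.Prime ∧ z.1 ≤ K ∧ z.2.Prime ∧ K < z.2 ∧
      (z.2 : ℝ) * (n * a * z.1) ≤ Real.log x) ∧
      (f z.1 z.2).Prime ∧ f z.1 z.2 ≡ 1 [MOD m] ∧ f z.1 z.2 % 8 = 1 ∧
        period a (f z.1 z.2) = n * z.1 * z.2 ∧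
        ∃ i t : ℕ, (a ^ (n * z.1 * z.2) - 1) / f z.1 z.2 = f z.1 z.2 ^ (2 * i) * t ∧
          J((t : ℤ) | f z.1 z.2) = -1 := by
    intro z hz
    simp only [hU, Finset.mem_sigma, Finset.mem_filter] at hz
    obtain ⟨z1, z2, z3⟩ := hz
    obtain ⟨m1, m2, m3, m4⟩ := hmem _ z1 _ z2
    have := hkK _ z1
    exact ⟨⟨(hS _ z1).1, this, m1, z3, m4⟩,
      hf z.1 (hS _ z1).1 (hS _ z1).2 z.2 m1 (by omega) (by omega) m2 m3⟩
  have hcard : U.card ≤ Set.ncard {p : ℕ | p.Prime ∧ (p : ℝ) ≤ x ∧ ¬ p ∣ a ∧ p ≡ 1 [MOD m] ∧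
        Even (expo a p) ∧ ¬ IsSquare ((block a p / p ^ expo a p : ℕ) : ZMod p) ∧
        ¬ IsSquare ((fermatQuot a p / p ^ expo a p : ℕ) : ZMod p)} := by
    rw [← Set.ncard_coe_finset]
    refine Set.ncard_le_ncard_of_injOn (fun z => f z.1 z.2) ?_ ?_ ?_
    · intro z hz
      obtain ⟨⟨z1, -, z2, -, z3⟩, g1, g2, g3, g6, i, t, g5, g7⟩ := hUm z hz
      obtain ⟨b1, b2, b3⟩ := bad_of_neg ha g1 g3
        (by rw [g6]; exact (Nat.mul_pos (Nat.mul_pos hn z1.pos) z2.pos).ne')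
        (by rw [block, g6]; exact g5) g7
      refine ⟨g1, ?_, b1, g2, b3⟩
      have c1 : ((f z.1 z.2 : ℕ) : ℝ) ≤ (a : ℝ) ^ (n * z.1 * z.2) := by
        rw [← g6]; exact_mod_cast b2
      have c2 : (a : ℝ) ^ (n * z.1 * z.2) ≤ Real.exp a ^ (n * z.1 * z.2) :=
        pow_le_pow_left₀ (by positivity) (by linarith [Real.add_one_le_exp (a : ℝ)]) _
      have c3 : Real.exp a ^ (n * z.1 * z.2) ≤ x := by
        rw [← Real.exp_nat_mul, ← Real.exp_log hx]
        apply Real.exp_le_exp.2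
        push_cast
        linarith
      linarith
    · rintro ⟨k, l⟩ hz ⟨k2, l2⟩ hz2 he
      obtain ⟨⟨z1, -, z2, z3, -⟩, -, -, -, g1, -⟩ := hUm _ hz
      obtain ⟨⟨w1, w4, w2, -, -⟩, -, -, -, g2, -⟩ := hUm _ hz2
      simp only at he g1 g2 z1 z2 z3 w1 w2 w4
      rw [he, g2, mul_assoc, mul_assoc] at g1
      have g3 := Nat.eq_of_mul_eq_mul_left hn g1
      have g4 : l = l2 := by
        rcases (z2.dvd_mul).1 (show l ∣ k2 * l2 from ⟨k, by rw [g3, mul_comm]⟩) with h | h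
        · have := Nat.le_of_dvd w1.pos h
          omega
        · exact (Nat.prime_dvd_prime_iff_eq z2 w2).1 h
      subst g4
      have g5 := Nat.eq_of_mul_eq_mul_right z2.pos g3
      subst g5
      rfl
    · refine (Set.finite_Iic ⌊x⌋₊).subset fun p hp => ?_
      exact Nat.le_floor hp.2.1
  have hθ : ∀ k ∈ S, Real.log x / (3 * Q.totient * (n * a)) * (1 / k) ≤
      (((P k (y k)).filter (fun l => K < l)).card + K) * Real.log (Real.log x) := by
    intro k hk
    have hk1 : (1 : ℝ) ≤ k := by exact_mod_cast (hS k hk).1.pos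
    have d1 : ∑ l ∈ P k (y k), Real.log l ≤ (P k (y k)).card * Real.log (Real.log x) := by
      rw [← nsmul_eq_mul]
      apply Finset.sum_le_card_nsmul
      intro l hl
      obtain ⟨m1, -, -, m4⟩ := hmem k hk l hl
      have hl0 : (0 : ℝ) < l := by exact_mod_cast m1.pos
      apply Real.log_le_log hl0
      have : (1 : ℝ) ≤ n * a * k := by nlinarith
      nlinarith
    have d2 : (P k (y k)).card ≤ ((P k (y k)).filter (fun l => K < l)).card + K := by
      rw [← Finset.card_filter_add_card_filter_not (s := P k (y k)) (fun l => K < l)]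
      apply Nat.add_le_add_left
      refine (Finset.card_le_card (t := Finset.Icc 1 K) ?_).trans (by simp)
      intro l hl
      rw [Finset.mem_filter] at hl
      exact Finset.mem_Icc.2 ⟨(hmem k hk l hl.1).1.pos, by omega⟩
    have d3 : ((P k (y k)).card : ℝ) ≤ ((P k (y k)).filter (fun l => K < l)).card + K := by
      exact_mod_cast d2
    have d4 : Real.log x / (3 * Q.totient * (n * a)) * (1 / k) =
        Real.log x / (n * a * k) / (3 * Q.totient) := by
      field_simp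
    rw [d4]
    exact (e1 k hk).trans (d1.trans (mul_le_mul_of_nonneg_right d3 hL.le))
  have d5 := Finset.sum_le_sum hθ
  rw [← Finset.mul_sum, ← Finset.sum_mul, Finset.sum_add_distrib, Finset.sum_const, nsmul_eq_mul,
    ← Nat.cast_sum, ← Finset.card_sigma] at d5
  have d6 : (C + 1) * Real.log x ≤
      Real.log x / (3 * Q.totient * (n * a)) * ∑ k ∈ S, (1 : ℝ) / k := by
    refine le_trans (le_of_eq ?_) (mul_le_mul_of_nonneg_left hsum (by positivity))
    field_simp
  have d7 : (U.card : ℝ) ≤ _ := Nat.cast_le.2 hcard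
  refine le_trans ?_ d7
  rw [← mul_div_assoc, div_le_iff₀ hL]
  push_cast at e2
  nlinarith

end Pool.Agent.Results.MP_5e2fbc_nt.NonResidue
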