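import Mathlib
import Pool.Agent.Shared.NonWief.Final

set_option autoImplicit false

namespace Pool.Agent.Results.MP_5e2fbc_nt.NonWieferich

open Filter Finset Pool.Agent.NW

/-- The Fermat quotient `(a ^ (p - 1) - 1) / p`. -/
def fermatQuot (a p : ℕ) : ℕ := (a ^ (p - 1) - 1) / p

lemma fq_pow {a p : ℕ} (hp : p.Prime) (hpa : ¬ p ∣ a) (k : ℕ) :
    (p:ℤ) ∣ (fq (a ^ k) p : ℤ) - k * fq a p := by
  have := Fact.mk hp
  have h1 := fq_spec hpa
  have h2 := fq_spec (p := p) (a := a ^ k) fun h => hpa (hp.dvd_of_dvd_pow h)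
  have h3 : ∀ n : ℕ, ∃ t : ℤ, (1 + p * fq a p : ℤ) ^ n = 1 + p * (n * fq a p + p * t) := by
    intro n
    induction n with
    | zero => exact ⟨0, by simp⟩
    | succ n ih =>
      obtain ⟨t, ht⟩ := ih
      refine ⟨t + n * fq a p * fq a p + p * t * fq a p, ?_⟩
      rw [pow_succ, ht]; push_cast; ring
  obtain ⟨t, ht⟩ := h3 k
  rw [← pow_mul, mul_comm k, pow_mul, h1] at h2
  have h4 : (1 + p * fq a p : ℤ) ^ k = 1 + p * fq (a ^ k) p := by exact_mod_cast h2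
  rw [ht, add_right_inj] at h4
  have h5 := mul_left_cancel₀ (Nat.cast_ne_zero.2 hp.ne_zero) h4
  exact ⟨t, by linarith⟩

lemma count {Bad : ℕ → Prop} {S : Set ℕ} {δ : ℝ} (hδ : 0 < δ)
    (h : ∀ᶠ x : ℕ in atTop, δ * x ≤ thb Bad x) (hS : ∀ p, p.Prime → 3 < p → Bad p → p ∈ S) :
    ∀ᶠ x : ℕ in atTop, δ / 2 * x / Real.log x ≤ ({p | p ≤ x ∧ p ∈ S}.ncard : ℝ) := by
  classical
  have h1 := tendsto_natCast_atTop_atTop.eventually
    (Real.isLittleO_log_id_atTop.bound (c := δ / 6) (by positivity))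
  filter_upwards [h, h1, eventually_ge_atTop 2] with x h2 h3 h4
  have hx : (1:ℝ) < x := by exact_mod_cast h4
  have hl := Real.log_pos hx
  rw [id, Real.norm_eq_abs, Real.norm_eq_abs, Nat.abs_cast, abs_of_pos hl] at h3
  have h5 : #{p ∈ Icc 1 x | p.Prime ∧ Bad p} ≤ #{p ∈ Icc 1 x | p ∈ S} + 3 := by
    refine (card_le_card (t := {p ∈ Icc 1 x | p ∈ S} ∪ Icc 1 3) fun p hp => ?_).trans
      ((card_union_le _ _).trans (by simp))
    rw [mem_filter] at hp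
    rw [mem_union, mem_filter, mem_Icc (a := 1) (b := 3)]
    rcases lt_or_ge 3 p with h6 | h6
    · exact Or.inl ⟨hp.1, hS p hp.2.1 h6 hp.2.2⟩
    · exact Or.inr ⟨hp.2.1.pos, h6⟩
  have h6 : #{p ∈ Icc 1 x | p ∈ S} ≤ {p | p ≤ x ∧ p ∈ S}.ncard := by
    rw [← Set.ncard_coe_finset]
    refine Set.ncard_le_ncard (fun p hp => ?_) ((Set.finite_le_nat x).subset fun p hp => hp.1)
    rw [mem_coe, mem_filter, mem_Icc] at hp
    exact ⟨hp.1.2, hp.2⟩
  have h7 : (#{p ∈ Icc 1 x | p.Prime ∧ Bad p} : ℝ) ≤ ({p | p ≤ x ∧ p ∈ S}.ncard : ℝ) + 3 := by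
    exact_mod_cast h5.trans (Nat.add_le_add_right h6 3)
  have h8 := h2.trans ((thb_le Bad x).trans (mul_le_mul_of_nonneg_right h7 hl.le))
  rw [div_le_iff₀ hl]
  linarith

/-- For a base `a` that is a power of two or of three and every rational number `u / v`, a positive
proportion of the primes `p` have Fermat quotient not congruent to `u / v` modulo `p`. -/
theorem result (b k : ℕ) (hb : b = 2 ∨ b = 3) (hk : 1 ≤ k) (u v : ℤ) (hv : v ≠ 0) :
    ∃ δ : ℝ, 0 < δ ∧ ∀ᶠ x : ℕ in atTop, δ * x / Real.log x ≤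
      ({p : ℕ | p ≤ x ∧ p.Prime ∧ ¬ p ∣ b ^ k ∧
        ¬ (p:ℤ) ∣ v * (fermatQuot (b ^ k) p : ℤ) - u}.ncard : ℝ) := by
  have hv' : v * k ≠ 0 := mul_ne_zero hv (Nat.cast_ne_zero.2 (by omega))
  have key : ∀ p : ℕ, p.Prime → 3 < p → ¬ (p:ℤ) ∣ v * k * fq b p - u →
      p ∈ {p : ℕ | p.Prime ∧ ¬ p ∣ b ^ k ∧ ¬ (p:ℤ) ∣ v * (fermatQuot (b ^ k) p : ℤ) - u} := by
    intro p hp h3 h
    have hpb : ¬ p ∣ b := Nat.not_dvd_of_pos_of_lt (by omega) (by omega)
    refine ⟨hp, fun h1 => hpb (hp.dvd_of_dvd_pow h1), fun h1 => h ?_⟩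
    have := dvd_sub h1 ((fq_pow hp hpb k).mul_left v)
    rwa [show fermatQuot (b ^ k) p = fq (b ^ k) p from rfl,
      show v * (fq (b ^ k) p : ℤ) - u - v * (fq (b ^ k) p - k * fq b p) = v * k * fq b p - u by
        ring] at this
  rcases hb with rfl | rfl
  · exact ⟨_, by norm_num, count (by norm_num) (dens_two u hv') key⟩
  · exact ⟨_, by norm_num, count (by norm_num) (dens_three u hv') fun p hp h3 h =>
      key p hp h3 (h.resolve_left (by omega))⟩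

end Pool.Agent.Results.MP_5e2fbc_nt.NonWieferich
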