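import Pool.Agent.Lib.MP_de9007_nt.PU.Main2

/-! A power saving for the exponent of `p` in `a ^ (p - 1) - b ^ (p - 1)`, linear in the height. -/

namespace Pool.Agent.Results.MP_5e2fbc_nt.PowerSavingLinear

open Pool.Agent.Lib.MP_de9007_nt.PU

theorem result : ∃ η C : ℝ, 0 < η ∧ ∀ (a b : ℤ) (p : ℕ), |b| < a → p.Prime → ¬ (p : ℤ) ∣ a →
    ¬ (p : ℤ) ∣ b →
    (padicValInt p (a ^ (p - 1) - b ^ (p - 1)) : ℝ) ≤ C * (p : ℝ) ^ (1 - η) * Real.log a := by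
  obtain ⟨η₀, h0, Q, H⟩ := VB2
  refine ⟨min η₀ 1, 12 + 4 * Q, lt_min h0 one_pos, fun a b p hb hp qa qb => ?_⟩
  have : Fact p.Prime := ⟨hp⟩
  have b0 : b ≠ 0 := by rintro rfl; simp at qb
  have b1 := abs_pos.2 b0
  have ha : 1 < a := by omega
  obtain ⟨n, hn⟩ : ∃ n, n = padicValInt p (a ^ (p - 1) - b ^ (p - 1)) := ⟨_, rfl⟩
  have d1 : (p : ℤ) ^ n ∣ a ^ (p - 1) - b ^ (p - 1) := hn ▸ padicValInt_dvd _
  rw [← hn]
  have p2 := hp.two_le
  have p1 : (1 : ℝ) ≤ p := by exact_mod_cast hp.one_le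
  have a2 : (2 : ℝ) ≤ a := by exact_mod_cast ha
  have la : Real.log 2 ≤ Real.log a := Real.log_le_log two_pos a2
  have l2 := Real.log_two_gt_d9
  have r1 : 1 ≤ (p : ℝ) ^ (1 - min η₀ 1) := Real.one_le_rpow p1 (by linarith [min_le_right η₀ 1])
  have Q0 : (0 : ℝ) ≤ Q := Nat.cast_nonneg _
  have l0 : 0 ≤ Real.log a := by linarith
  rcases lt_or_ge p Q with c | c
  · have e1 : |b| ^ (p - 1) < a ^ (p - 1) := pow_lt_pow_left₀ hb (abs_nonneg _) (by omega)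
    rw [← abs_pow, abs_lt] at e1
    have e2 : (2 : ℤ) ^ n ≤ a ^ p :=
      calc (2 : ℤ) ^ n ≤ (p : ℤ) ^ n := pow_le_pow_left₀ (by norm_num) (by exact_mod_cast p2) _
        _ ≤ a ^ (p - 1) - b ^ (p - 1) := Int.le_of_dvd (by omega) d1
        _ ≤ a ^ (p - 1) * 2 := by omega
        _ ≤ a ^ (p - 1) * a := mul_le_mul_of_nonneg_left (by omega) (by positivity)
        _ = a ^ p := by rw [← pow_succ, Nat.sub_add_cancel hp.one_le]
    have e3 := Real.log_le_log (by positivity) (show (2 : ℝ) ^ n ≤ (a : ℝ) ^ p by exact_mod_cast e2)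
    rw [Real.log_pow, Real.log_pow] at e3
    have e4 : (p : ℝ) ≤ Q := by exact_mod_cast c.le
    have e5 := mul_le_mul_of_nonneg_right e4 l0
    have e6 : (0 : ℝ) ≤ n := Nat.cast_nonneg _
    calc (n : ℝ) ≤ (12 + 4 * Q) * 1 * Real.log a := by nlinarith
      _ ≤ _ := by gcongr
  · have e1 : (p : ℝ) ^ (1 - η₀) ≤ (p : ℝ) ^ (1 - min η₀ 1) :=
      Real.rpow_le_rpow_of_exponent_le p1 (by linarith [min_le_left η₀ 1])
    calc (n : ℝ) ≤ _ := H a b p n ha hb hp c qa qb d1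
      _ = 12 * (p : ℝ) ^ (1 - η₀) * Real.log a := by ring
      _ ≤ _ := by gcongr; linarith

end Pool.Agent.Results.MP_5e2fbc_nt.PowerSavingLinear
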